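import Pool.Agent.Q230.EM.Ex
import Pool.Agent.Q230.EM.Ren
import Pool.Agent.Q230.EM.Mat
import Pool.Agent.Q230.EM.Mono
import Pool.Agent.Q230.EM.Ure

set_option autoImplicit false

namespace Pool.Agent.Results.MP_99d1ae_lc.BetweenMatrixAndRE

open Pool.Agent.Q230.EM Pool.Agent.Q230.EM.Mc Pool.Agent.Q230.EM.Ur

/-- `EM_1`: the languages over `T` generated in mode 1 by the even matrix grammars of all degrees
`n ≥ 1` -/
def EM1 (T : Type) : Set (Set (List T)) := {L | ∃ n, 1 ≤ n ∧ L ∈ Fam T n true}

/-- the recursively enumerable languages over `T`: the languages of the phrase structure grammars -/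
def FamRE (T : Type) : Set (Set (List T)) := {L | ∃ G : PSG T, G.Lang = L}

/-- a language which is r.e. but not recursive, over `Fin 1` -/
theorem exists_re : ∃ R : Set (List (Fin 1)), REPred (fun u => u ∈ R) ∧
    ¬ ComputablePred fun u => u ∈ R := by
  obtain ⟨f, hf, hund⟩ := Pool.Agent.Helper707.Num.exists_undecidable
  let R : Set (List (Fin 1)) := {u | ∃ k, f (k ::ᵥ u.length ::ᵥ List.Vector.nil) = 0}
  refine ⟨R, ?_, fun hc => hund ?_⟩
  · have h1 : Primrec₂ fun (u : List (Fin 1)) (k : ℕ) =>
        f (k ::ᵥ u.length ::ᵥ List.Vector.nil) := by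
      refine hf.to_prim.comp ?_
      exact Primrec.vector_cons.comp Primrec.snd (Primrec.vector_cons.comp
        (Primrec.list_length.comp Primrec.fst) (Primrec.const _))
    have h2 : Partrec fun u : List (Fin 1) =>
        Nat.rfind fun k => (Part.some (decide (f (k ::ᵥ u.length ::ᵥ List.Vector.nil) = 0)) :
          Part Bool) := by
      refine Partrec.rfind ?_
      exact ((Primrec.eq (α := ℕ)).decide.comp h1 (Primrec.const 0)).to_comp.partrec.to₂
    have h3 := h2.dom_re
    refine h3.of_eq ?_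
    intro u
    rw [Nat.rfind_dom]
    constructor
    · rintro ⟨k, hk, -⟩
      exact ⟨k, by simpa using hk⟩
    · rintro ⟨k, hk⟩
      exact ⟨k, by simpa using hk, by simp⟩
  · obtain ⟨g, hg, hgp⟩ := ComputablePred.computable_iff.1 hc
    rw [ComputablePred.computable_iff]
    have h1 : Primrec fun n : ℕ => List.replicate n (0 : Fin 1) := by
      have : Primrec fun n : ℕ => (List.range n).map fun _ => (0 : Fin 1) :=
        Primrec.list_map Primrec.list_range (Primrec.const (0 : Fin 1)).to₂
      refine this.of_eq fun n => ?_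
      simp [List.map_const']
    refine ⟨fun n => g (List.replicate n 0), hg.comp h1.to_comp, ?_⟩
    funext n
    have := congrFun hgp (List.replicate n 0)
    simpa [R] using this

/-- `M ⊊ EM_1 ⊊ RE`; moreover `EM_1` contains non-recursive languages and does not contain all
context-sensitive languages. -/
theorem result :
    -- `M ⊆ EM_1`
    (∀ (T : Type) [Finite T], FamM T ⊆ EM1 T) ∧
    -- some language of `EM_1` is not in `M`
    (∃ L ∈ EM1 Bool, ∀ (T : Type) [Finite T] (f : Bool → T), Function.Injective f →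
      List.map f '' L ∉ FamM T) ∧
    -- each r.e. language `R` is encoded in a language of `EM_1`: `L ∩ a c T* = a c R`
    (∀ (k : ℕ) (R : Set (List (Fin k))), REPred (fun u => u ∈ R) →
      ∃ L ∈ EM1 (Fin k ⊕ Bool), ∀ u : List (Fin k),
        Sum.inr false :: Sum.inr true :: u.map Sum.inl ∈ L ↔ u ∈ R) ∧
    -- `EM_1` contains a language which is not recursive
    (∃ L ∈ EM1 (Fin 1 ⊕ Bool), ¬ ComputablePred fun w => w ∈ L) ∧
    -- the words `a ^ (2 ^ k)` form a context-sensitive language which is not in `EM_1`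
    (∀ (T : Type) (a : T), powers a ∈ FamCS T ∧ powers a ∈ FamRE T ∧ powers a ∉ EM1 T) := by
  have h3 : ∀ (k : ℕ) (R : Set (List (Fin k))), REPred (fun u => u ∈ R) →
      ∃ L ∈ EM1 (Fin k ⊕ Bool), ∀ u : List (Fin k),
        Sum.inr false :: Sum.inr true :: u.map Sum.inl ∈ L ↔ u ∈ R := by
    intro k R hR
    obtain ⟨G, hG⟩ := re_coded k R hR
    exact ⟨G.Lang true, ⟨2, by norm_num, G, rfl⟩, hG⟩
  refine ⟨?_, ?_, h3, ?_, ?_⟩
  · intro T _ L hL
    exact ⟨2, by norm_num, fam_sub T (famM_sub T hL)⟩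
  · refine ⟨_, ⟨2, by norm_num, Ex.mem_mode1⟩, fun T _ f hf hm => ?_⟩
    exact Ex.not_mode0 T f hf (famM_sub T hm)
  · obtain ⟨R, hR, hnc⟩ := exists_re
    obtain ⟨L, hL, hLR⟩ := h3 1 R hR
    refine ⟨L, hL, fun hc => hnc ?_⟩
    obtain ⟨g, hg, hgp⟩ := ComputablePred.computable_iff.1 hc
    rw [ComputablePred.computable_iff]
    have h1 : Primrec fun u : List (Fin 1) =>
        (Sum.inr false :: Sum.inr true :: u.map Sum.inl : List (Fin 1 ⊕ Bool)) :=
      Primrec.list_cons.comp (Primrec.const _) (Primrec.list_cons.comp (Primrec.const _)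
        (Primrec.list_map Primrec.id (Primrec.sumInl.comp Primrec.snd).to₂))
    refine ⟨fun u => g (Sum.inr false :: Sum.inr true :: u.map Sum.inl), hg.comp h1.to_comp, ?_⟩
    funext u
    have := congrFun hgp (Sum.inr false :: Sum.inr true :: u.map Sum.inl)
    rw [← this]
    exact propext (hLR u).symm
  · intro T a
    obtain ⟨G, hG1, hG2⟩ := powers_cs a
    refine ⟨⟨G, hG1, hG2⟩, ⟨G, hG2⟩, ?_⟩
    rintro ⟨n, -, h⟩
    exact powers_not_mem a n true h

end Pool.Agent.Results.MP_99d1ae_lc.BetweenMatrixAndRE
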